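import Pool.Agent.Q241.FP.B

/-! # Sums of distinct powers with signs, and moments of lacunary sums under an invariant measure -/

namespace Pool.Agent.Q83.FL

open MeasureTheory Filter Topology Q241.FP

/-- Digits in `{-1, 0, 1}` are determined by the value in a base `P ≥ 3`. -/
theorem digits_unique {P : ℤ} (hP : 3 ≤ P) : ∀ (K : ℕ) (a b : ℕ → ℤ), (∀ i, |a i| ≤ 1) →
    (∀ i, |b i| ≤ 1) →
    ∑ i ∈ Finset.range K, a i * P ^ i = ∑ i ∈ Finset.range K, b i * P ^ i →
    ∀ i < K, a i = b i := by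
  intro K
  induction K with
  | zero => intro a b _ _ _ i hi; omega
  | succ K ih =>
    intro a b ha hb h
    rw [Finset.sum_range_succ', Finset.sum_range_succ'] at h
    have e1 : ∀ f : ℕ → ℤ, ∑ i ∈ Finset.range K, f (i + 1) * P ^ (i + 1) =
        P * ∑ i ∈ Finset.range K, f (i + 1) * P ^ i := by
      intro f
      rw [Finset.mul_sum]
      exact Finset.sum_congr rfl fun i _ => by ring
    rw [e1, e1] at h
    simp only [pow_zero, mul_one] at h
    have h0 : a 0 - b 0 = 0 := by
      have hd : P ∣ a 0 - b 0 :=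
        ⟨∑ i ∈ Finset.range K, b (i + 1) * P ^ i - ∑ i ∈ Finset.range K, a (i + 1) * P ^ i,
          by linarith⟩
      have h1 : |a 0 - b 0| < P := by
        have := ha 0
        have := hb 0
        have := abs_sub (a 0) (b 0)
        linarith
      exact Int.eq_zero_of_abs_lt_dvd hd h1
    have h0' : a 0 = b 0 := by linarith
    have h2 : ∑ i ∈ Finset.range K, a (i + 1) * P ^ i = ∑ i ∈ Finset.range K, b (i + 1) * P ^ i := by
      have h3 : P * ∑ i ∈ Finset.range K, a (i + 1) * P ^ i =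
          P * ∑ i ∈ Finset.range K, b (i + 1) * P ^ i := by linarith
      exact mul_left_cancel₀ (by linarith : P ≠ 0) h3
    have h4 := ih (fun i => a (i + 1)) (fun i => b (i + 1)) (fun i => ha _) (fun i => hb _) h2
    intro i hi
    rcases i with _ | i
    · exact h0'
    · exact h4 i (by omega)

set_option linter.unusedSectionVars false

section Sums

variable {U : Type} [Fintype U] [DecidableEq U]

/-- signed sum of powers -/
def ssum (σ : U → ℤ) (P : ℤ) {K : ℕ} (φ : U → Fin K) : ℤ := ∑ u, σ u * P ^ (φ u : ℕ)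

/-- digit of a signed sum of powers -/
def dig (σ : U → ℤ) {K : ℕ} (φ : U → Fin K) (i : ℕ) : ℤ := ∑ u, if (φ u : ℕ) = i then σ u else 0

theorem ssum_eq (σ : U → ℤ) (P : ℤ) {K : ℕ} (φ : U → Fin K) :
    ssum σ P φ = ∑ i ∈ Finset.range K, dig σ φ i * P ^ i := by
  unfold ssum dig
  simp_rw [Finset.sum_mul]
  rw [Finset.sum_comm]
  apply Finset.sum_congr rfl
  intro u _
  rw [Finset.sum_eq_single (φ u : ℕ)]
  · simp
  · intro i _ hi
    rw [if_neg (Ne.symm hi), zero_mul]
  · intro h
    exact absurd (Finset.mem_range.mpr (φ u).2) h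

theorem dig_apply {σ : U → ℤ} {K : ℕ} {φ : U → Fin K} (hφ : Function.Injective φ) (u : U) :
    dig σ φ (φ u) = σ u := by
  unfold dig
  rw [Finset.sum_eq_single u]
  · simp
  · intro v _ hv
    rw [if_neg]
    intro h
    exact hv (hφ (Fin.ext h))
  · intro h
    exact absurd (Finset.mem_univ u) h

theorem dig_eq_zero {σ : U → ℤ} {K : ℕ} {φ : U → Fin K} {i : ℕ} (h : ∀ u, (φ u : ℕ) ≠ i) :
    dig σ φ i = 0 := by
  unfold dig
  exact Finset.sum_eq_zero fun u _ => if_neg (h u)

theorem abs_dig_le {σ : U → ℤ} (hσ : ∀ u, |σ u| = 1) {K : ℕ} {φ : U → Fin K}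
    (hφ : Function.Injective φ) (i : ℕ) : |dig σ φ i| ≤ 1 := by
  by_cases h : ∃ u, (φ u : ℕ) = i
  · obtain ⟨u, rfl⟩ := h
    rw [dig_apply hφ, hσ]
  · push Not at h
    rw [dig_eq_zero h]
    simp

/-- Two injections with the same sum up to sign: the ranges agree. -/
theorem mem_range_of_natAbs_eq {σ : U → ℤ} (hσ : ∀ u, |σ u| = 1) {P : ℤ} (hP : 3 ≤ P) {K : ℕ}
    {φ ψ : U → Fin K} (hφ : Function.Injective φ) (hψ : Function.Injective ψ)
    (h : (ssum σ P φ).natAbs = (ssum σ P ψ).natAbs) (u : U) : ∃ v, ψ v = φ u := by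
  have hne : σ u ≠ 0 := by
    intro h0
    have := hσ u
    rw [h0] at this
    simp at this
  have key : dig σ ψ (φ u) ≠ 0 := by
    rcases Int.natAbs_eq_natAbs_iff.mp h with h1 | h1
    · rw [ssum_eq, ssum_eq] at h1
      have := digits_unique hP K _ _ (abs_dig_le hσ hφ) (abs_dig_le hσ hψ) h1 (φ u) (φ u).2
      rw [← this, dig_apply hφ]
      exact hne
    · rw [ssum_eq, ssum_eq, ← Finset.sum_neg_distrib] at h1
      have h2 : ∑ i ∈ Finset.range K, dig σ φ i * P ^ i =
          ∑ i ∈ Finset.range K, (- dig σ ψ i) * P ^ i := by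
        rw [h1]
        exact Finset.sum_congr rfl fun i _ => by ring
      have := digits_unique hP K _ (fun i => - dig σ ψ i) (abs_dig_le hσ hφ)
        (fun i => by rw [abs_neg]; exact abs_dig_le hσ hψ i) h2 (φ u) (φ u).2
      rw [dig_apply hφ] at this
      intro h3
      rw [h3, neg_zero] at this
      exact hne this
  by_contra hcon
  push Not at hcon
  apply key
  apply dig_eq_zero
  intro v hv
  exact hcon v (Fin.ext hv)

theorem ssum_ne_zero [Nonempty U] {σ : U → ℤ} (hσ : ∀ u, |σ u| = 1) {P : ℤ} (hP : 3 ≤ P) {K : ℕ}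
    {φ : U → Fin K} (hφ : Function.Injective φ) : ssum σ P φ ≠ 0 := by
  intro h
  rw [ssum_eq] at h
  obtain ⟨u⟩ := ‹Nonempty U›
  have h2 : ∑ i ∈ Finset.range K, dig σ φ i * P ^ i = ∑ i ∈ Finset.range K, (0 : ℤ) * P ^ i := by
    rw [h]; simp
  have := digits_unique hP K _ (fun _ => 0) (abs_dig_le hσ hφ) (by simp) h2 (φ u) (φ u).2
  rw [dig_apply hφ] at this
  have h3 := hσ u
  rw [this] at h3
  simp at h3

theorem abs_ssum_le {σ : U → ℤ} (hσ : ∀ u, |σ u| = 1) {P : ℤ} (hP : 1 ≤ P) {K : ℕ}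
    (φ : U → Fin K) : |ssum σ P φ| ≤ Fintype.card U * P ^ K := by
  unfold ssum
  calc |∑ u, σ u * P ^ (φ u : ℕ)| ≤ ∑ u, |σ u * P ^ (φ u : ℕ)| := Finset.abs_sum_le_sum_abs _ _
    _ ≤ ∑ _u : U, P ^ K := by
        apply Finset.sum_le_sum
        intro u _
        rw [abs_mul, hσ, one_mul, abs_of_nonneg (by positivity)]
        exact pow_le_pow_right₀ hP (φ u).2.le
    _ = Fintype.card U * P ^ K := by simp

/-- Many values of signed sums over injections from a large set of injections. -/
theorem card_image_ge {σ : U → ℤ} (hσ : ∀ u, |σ u| = 1) {P : ℤ} (hP : 3 ≤ P) {K : ℕ}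
    {m : ℤ} (hm : m ≠ 0) (G : Finset (U → Fin K)) (hG : ∀ φ ∈ G, Function.Injective φ) :
    G.card ≤ (Fintype.card U) ^ (Fintype.card U) *
      (G.image (fun φ => (m * ssum σ P φ).natAbs)).card := by
  classical
  apply Finset.card_le_mul_card_image
  intro n hn
  obtain ⟨ψ, hψ, rfl⟩ := Finset.mem_image.mp hn
  have hsub : (G.filter (fun φ => (m * ssum σ P φ).natAbs = (m * ssum σ P ψ).natAbs)) ⊆
      Fintype.piFinset (fun _ : U => Finset.univ.image ψ) := by
    intro φ hφ
    rw [Finset.mem_filter] at hφ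
    rw [Fintype.mem_piFinset]
    intro u
    have h1 : (ssum σ P φ).natAbs = (ssum σ P ψ).natAbs := by
      have := hφ.2
      rw [Int.natAbs_mul, Int.natAbs_mul] at this
      exact Nat.eq_of_mul_eq_mul_left (Int.natAbs_pos.mpr hm) this
    obtain ⟨v, hv⟩ := mem_range_of_natAbs_eq hσ hP (hG φ hφ.1) (hG ψ hψ) h1 u
    exact Finset.mem_image.mpr ⟨v, Finset.mem_univ _, hv⟩
  refine le_trans (Finset.card_le_card hsub) ?_
  rw [Fintype.card_piFinset]
  refine le_trans (Finset.prod_le_pow_card _ _ (Fintype.card U) ?_) ?_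
  · intro u _
    exact le_trans Finset.card_image_le (by simp)
  · simp

/-- Few maps are not injective. -/
theorem card_not_injective_le {K : ℕ} (hK : Fintype.card U ≤ K) :
    (((Finset.univ : Finset (U → Fin K)).filter (fun φ => ¬ Function.Injective φ)).card : ℝ) ≤
      (Fintype.card U : ℝ) ^ 2 / K * (K : ℝ) ^ (Fintype.card U) := by
  classical
  set n := Fintype.card U with hn
  rcases Nat.eq_zero_or_pos n with h0 | hpos
  · have : IsEmpty U := Fintype.card_eq_zero_iff.mp (by rw [← hn, h0])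
    have h1 : ((Finset.univ : Finset (U → Fin K)).filter (fun φ => ¬ Function.Injective φ)) = ∅ := by
      apply Finset.filter_false_of_mem
      intro φ _
      rw [not_not]
      exact Function.injective_of_subsingleton φ
    rw [h1]
    simp only [Finset.card_empty, Nat.cast_zero]
    positivity
  have hK0 : 0 < K := lt_of_lt_of_le hpos hK
  have hcard : ((Finset.univ : Finset (U → Fin K)).filter Function.Injective).card =
      K.descFactorial n := by
    have h1 : Fintype.card (U ↪ Fin K) = K.descFactorial n := by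
      rw [Fintype.card_embedding_eq, Fintype.card_fin]
    rw [← h1, ← Fintype.card_subtype]
    exact Fintype.card_congr (Equiv.subtypeInjectiveEquivEmbedding U (Fin K))
  have htot : ((Finset.univ : Finset (U → Fin K)).filter Function.Injective).card +
      ((Finset.univ : Finset (U → Fin K)).filter (fun φ => ¬ Function.Injective φ)).card = K ^ n := by
    rw [Finset.card_filter_add_card_filter_not]
    simp [hn]
  have h2 : (K + 1 - n) ^ n ≤ K.descFactorial n := Nat.pow_sub_le_descFactorial K n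
  have h3 : ((K + 1 - n : ℕ) : ℝ) = (K : ℝ) * (1 + (-((n - 1 : ℝ) / K))) := by
    rw [Nat.cast_sub (by omega)]
    push_cast
    field_simp
    ring
  have h4 : 1 + (n : ℝ) * (-((n - 1 : ℝ) / K)) ≤ (1 + (-((n - 1 : ℝ) / K))) ^ n := by
    apply one_add_mul_le_pow
    have : (n - 1 : ℝ) / K ≤ 1 := by
      rw [div_le_one (by positivity)]
      have : (n : ℝ) ≤ K := by exact_mod_cast hK
      linarith
    linarith
  have h5 : (K : ℝ) ^ n * (1 + (n : ℝ) * (-((n - 1 : ℝ) / K))) ≤ (K.descFactorial n : ℝ) := by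
    calc (K : ℝ) ^ n * (1 + (n : ℝ) * (-((n - 1 : ℝ) / K)))
        ≤ (K : ℝ) ^ n * (1 + (-((n - 1 : ℝ) / K))) ^ n :=
          mul_le_mul_of_nonneg_left h4 (by positivity)
      _ = (((K + 1 - n : ℕ) : ℝ)) ^ n := by rw [h3, mul_pow]
      _ ≤ (K.descFactorial n : ℝ) := by exact_mod_cast h2
  have h6 : ((((Finset.univ : Finset (U → Fin K)).filter Function.Injective).card : ℕ) : ℝ) +
      ((((Finset.univ : Finset (U → Fin K)).filter (fun φ => ¬ Function.Injective φ)).card : ℕ) : ℝ)
      = (K : ℝ) ^ n := by exact_mod_cast htot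
  rw [hcard] at h6
  have h7 : (n : ℝ) * ((n - 1 : ℝ) / K) ≤ (n : ℝ) ^ 2 / K := by
    rw [mul_div_assoc']
    apply div_le_div_of_nonneg_right _ (by positivity)
    have : (1 : ℝ) ≤ n := by exact_mod_cast hpos
    nlinarith
  have h8 : (K : ℝ) ^ n * ((n : ℝ) * ((n - 1 : ℝ) / K)) ≤ (n : ℝ) ^ 2 / K * (K : ℝ) ^ n := by
    rw [mul_comm]
    exact mul_le_mul_of_nonneg_right h7 (by positivity)
  nlinarith

end Sums

end Pool.Agent.Q83.FL
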