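import Pool.Agent.Q83.FL.A

/-! # The lower bound for the level sets of the Fourier coefficients of a `×p`-invariant measure -/

namespace Pool.Agent.Q83.FL

open MeasureTheory Filter Topology Q241.FP
open scoped Classical

theorem norm_c_le (μ : Measure TT) [IsProbabilityMeasure μ] (n : ℤ) : ‖c μ n‖ ≤ 1 := by
  unfold c
  refine le_trans (norm_integral_le_of_norm_le_const (C := 1) ?_) ?_
  · apply Filter.Eventually.of_forall
    intro x
    rw [fourier_apply, Circle.norm_coe]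
  · simp

theorem norm_c_natAbs (μ : Measure TT) (n : ℤ) : ‖c μ (n.natAbs : ℤ)‖ = ‖c μ n‖ := by
  rcases Int.natAbs_eq n with h | h
  · rw [← h]
  · have h2 : ((n.natAbs : ℕ) : ℤ) = -n := by omega
    rw [h2, c_neg, RCLike.norm_conj]

/-- signs -/
def sgn (k : ℕ) : Fin k ⊕ Fin k → ℤ := Sum.elim (fun _ => 1) (fun _ => -1)

theorem abs_sgn (k : ℕ) (u : Fin k ⊕ Fin k) : |sgn k u| = 1 := by
  rcases u with u | u <;> simp [sgn]

/-- lacunary sum -/
noncomputable def lac (m P : ℤ) (K : ℕ) (x : TT) : ℂ :=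
  ∑ i : Fin K, (fourier (m * P ^ (i : ℕ)) x : ℂ)

theorem prod_fourier {U : Type} (s : Finset U) (f : U → ℤ) (x : TT) :
    ∏ u ∈ s, (fourier (f u) x : ℂ) = fourier (∑ u ∈ s, f u) x := by
  classical
  induction s using Finset.induction_on with
  | empty => simp
  | insert a s ha ih => rw [Finset.prod_insert ha, Finset.sum_insert ha, ih, fourier_add]

theorem norm_lac_pow (m P : ℤ) (K k : ℕ) (x : TT) :
    ((‖lac m P K x‖ ^ (2 * k) : ℝ) : ℂ) =
      ∑ φ : (Fin k ⊕ Fin k → Fin K), (fourier (m * ssum (sgn k) P φ) x : ℂ) := by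
  have h1 : ((‖lac m P K x‖ ^ (2 * k) : ℝ) : ℂ) =
      ∏ u : Fin k ⊕ Fin k, ∑ i : Fin K, (fourier (m * (sgn k u * P ^ (i : ℕ))) x : ℂ) := by
    rw [Fintype.prod_sum_type]
    have e1 : ∀ u : Fin k, ∑ i : Fin K, (fourier (m * (sgn k (Sum.inl u) * P ^ (i : ℕ))) x : ℂ) =
        lac m P K x := by
      intro u
      simp [sgn, lac]
    have e2 : ∀ u : Fin k, ∑ i : Fin K, (fourier (m * (sgn k (Sum.inr u) * P ^ (i : ℕ))) x : ℂ) =
        (starRingEnd ℂ) (lac m P K x) := by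
      intro u
      rw [lac, map_sum]
      apply Finset.sum_congr rfl
      intro i _
      rw [← fourier_neg]
      congr 2
      simp [sgn]
    simp_rw [e1, e2]
    rw [Finset.prod_const, Finset.prod_const, Finset.card_univ, Fintype.card_fin, ← mul_pow,
      Complex.mul_conj, Complex.normSq_eq_norm_sq, pow_mul]
    push_cast
    ring
  rw [h1, Finset.prod_univ_sum, Fintype.piFinset_univ]
  apply Finset.sum_congr rfl
  intro φ _
  rw [prod_fourier, ssum, Finset.mul_sum]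

theorem continuous_lac (m P : ℤ) (K : ℕ) : Continuous (lac m P K) := by
  unfold lac
  exact continuous_finsetSum _ fun i _ => (fourier _).continuous

theorem moment (μ : Measure TT) [IsProbabilityMeasure μ] {m P : ℤ}
    (hinv : ∀ i : ℕ, c μ (m * P ^ i) = c μ m) (K k : ℕ) :
    ((K : ℝ) * ‖c μ m‖) ^ (2 * k) ≤
      ∑ φ : (Fin k ⊕ Fin k → Fin K), ‖c μ (m * ssum (sgn k) P φ)‖ := by
  have hint : ∫ x, lac m P K x ∂μ = K * c μ m := by
    unfold lac
    rw [integral_finsetSum _ fun i _ => integrable_fourier _ μ]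
    have : ∀ i : Fin K, ∫ x, (fourier (m * P ^ (i : ℕ)) x : ℂ) ∂μ = c μ m := fun i => hinv i
    simp_rw [this]
    simp
  have h1 : (K : ℝ) * ‖c μ m‖ ≤ ∫ x, ‖lac m P K x‖ ∂μ := by
    have := norm_integral_le_integral_norm (μ := μ) (lac m P K)
    rw [hint, norm_mul, Complex.norm_natCast] at this
    exact this
  have hb : ∀ f : TT → ℝ, Continuous f → Integrable f μ := by
    intro f hf
    exact (BoundedContinuousFunction.mkOfCompact ⟨f, hf⟩).integrable μ
  have h2 : (∫ x, ‖lac m P K x‖ ∂μ) ^ (2 * k) ≤ ∫ x, ‖lac m P K x‖ ^ (2 * k) ∂μ := by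
    apply ConvexOn.map_integral_le (s := Set.Ici (0 : ℝ)) (g := fun y : ℝ => y ^ (2 * k))
      (convexOn_pow (2 * k)) (continuous_pow _).continuousOn isClosed_Ici
    · exact Filter.Eventually.of_forall fun x => norm_nonneg _
    · exact hb _ (continuous_lac m P K).norm
    · exact hb _ ((continuous_lac m P K).norm.pow _)
  have h3 : ((∫ x, ‖lac m P K x‖ ^ (2 * k) ∂μ : ℝ) : ℂ) =
      ∑ φ : (Fin k ⊕ Fin k → Fin K), c μ (m * ssum (sgn k) P φ) := by
    have h30 : ((∫ x, ‖lac m P K x‖ ^ (2 * k) ∂μ : ℝ) : ℂ) =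
        ∫ x, ((‖lac m P K x‖ ^ (2 * k) : ℝ) : ℂ) ∂μ := integral_ofReal.symm
    rw [h30]
    simp_rw [norm_lac_pow]
    rw [integral_finsetSum _ fun i _ => integrable_fourier _ μ]
    rfl
  have h4 : ∫ x, ‖lac m P K x‖ ^ (2 * k) ∂μ ≤
      ∑ φ : (Fin k ⊕ Fin k → Fin K), ‖c μ (m * ssum (sgn k) P φ)‖ := by
    have h5 : ‖((∫ x, ‖lac m P K x‖ ^ (2 * k) ∂μ : ℝ) : ℂ)‖ =
        ∫ x, ‖lac m P K x‖ ^ (2 * k) ∂μ := by
      rw [Complex.norm_real, Real.norm_eq_abs, abs_of_nonneg]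
      exact integral_nonneg fun x => by positivity
    rw [← h5, h3]
    exact norm_sum_le _ _
  calc ((K : ℝ) * ‖c μ m‖) ^ (2 * k) ≤ (∫ x, ‖lac m P K x‖ ∂μ) ^ (2 * k) :=
        pow_le_pow_left₀ (by positivity) h1 _
    _ ≤ _ := h2.trans h4

/-- The frequencies `1 ≤ n ≤ N` with a Fourier coefficient of absolute value at least `ε`. -/
noncomputable def lev (μ : Measure TT) (ε : ℝ) (N : ℕ) : Finset ℕ :=
  (Finset.Icc 1 N).filter (fun n => ε ≤ ‖c μ (n : ℤ)‖)

theorem card_lev_ge (μ : Measure TT) [IsProbabilityMeasure μ] {m P : ℤ} (hP : 3 ≤ P) (hm : m ≠ 0)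
    (hinv : ∀ i : ℕ, c μ (m * P ^ i) = c μ m) (hδ : c μ m ≠ 0) {k : ℕ} (hk : 1 ≤ k) {t : ℝ}
    (ht0 : 0 < t) (ht : t < 1) {K N : ℕ}
    (hK : 8 * (k : ℝ) ^ 2 / ((1 - t) * ‖c μ m‖ ^ (2 * k)) ≤ K)
    (hN : 2 * k * |m| * P ^ K ≤ N) :
    (1 - t) * ‖c μ m‖ ^ (2 * k) / 2 / (2 * k : ℝ) ^ (2 * k) * (K : ℝ) ^ (2 * k) ≤
      ((lev μ (t * ‖c μ m‖ ^ (2 * k)) N).card : ℝ) := by
  set δ := ‖c μ m‖ with hδdef
  have hδ0 : 0 < δ := norm_pos_iff.mpr hδ
  have hδ1 : δ ≤ 1 := norm_c_le μ m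
  have hcU : Fintype.card (Fin k ⊕ Fin k) = 2 * k := by
    rw [Fintype.card_sum, Fintype.card_fin]; ring
  have hne : Nonempty (Fin k ⊕ Fin k) := ⟨Sum.inl ⟨0, hk⟩⟩
  set η := (1 - t) * δ ^ (2 * k) with hη
  have h1t : 0 < 1 - t := by linarith
  have hη0 : 0 < η := by positivity
  have hη1 : η ≤ 1 := by
    have : δ ^ (2 * k) ≤ 1 := pow_le_one₀ hδ0.le hδ1
    calc η ≤ 1 * 1 := mul_le_mul (by linarith) this (by positivity) zero_le_one
      _ = 1 := one_mul 1
  have hk1 : (1 : ℝ) ≤ k := by exact_mod_cast hk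
  have hKpos : (0 : ℝ) < K := lt_of_lt_of_le (by positivity) hK
  have hKU : Fintype.card (Fin k ⊕ Fin k) ≤ K := by
    have h1 : (2 * k : ℝ) ≤ K := by
      refine le_trans ?_ hK
      rw [le_div_iff₀ hη0]
      nlinarith
    rw [hcU]
    exact_mod_cast h1
  set τ := t * δ ^ (2 * k) with hτ
  have hτ0 : 0 < τ := by positivity
  set cc : ((Fin k ⊕ Fin k) → Fin K) → ℝ := fun φ => ‖c μ (m * ssum (sgn k) P φ)‖ with hcc
  have hmom := moment μ hinv K k
  set A : Finset ((Fin k ⊕ Fin k) → Fin K) := Finset.univ.filter (fun φ => τ ≤ cc φ) with hA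
  set G : Finset ((Fin k ⊕ Fin k) → Fin K) := A.filter (fun φ => Function.Injective φ) with hG
  have htotal : ((Finset.univ : Finset ((Fin k ⊕ Fin k) → Fin K)).card : ℝ) = (K : ℝ) ^ (2 * k) := by
    rw [Finset.card_univ, Fintype.card_fun, Fintype.card_fin, hcU]
    push_cast
    rfl
  have h1 : ∑ φ, cc φ ≤ (A.card : ℝ) + τ * (K : ℝ) ^ (2 * k) := by
    calc ∑ φ, cc φ ≤ ∑ φ   : (Fin k ⊕ Fin k) → Fin K, ((if τ ≤ cc φ then (1 : ℝ) else 0) + τ) := by
          apply Finset.sum_le_sum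
          intro φ _
          split_ifs with h
          · have : cc φ ≤ 1 := norm_c_le μ _
            linarith
          · push Not at h
            linarith
      _ = (A.card : ℝ) + τ * (K : ℝ) ^ (2 * k) := by
          rw [Finset.sum_add_distrib, Finset.sum_const, nsmul_eq_mul, htotal, hA,
            Finset.sum_boole]
          ring
  have h2 : ((K : ℝ) * δ) ^ (2 * k) ≤ (A.card : ℝ) + τ * (K : ℝ) ^ (2 * k) := hmom.trans h1
  have h3 : η * (K : ℝ) ^ (2 * k) ≤ A.card := by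
    rw [mul_pow] at h2
    rw [hη]
    nlinarith [h2]
  have h4 : (A.card : ℝ) ≤ G.card +
      ((Finset.univ : Finset ((Fin k ⊕ Fin k) → Fin K)).filter (fun φ => ¬ Function.Injective φ)).card := by
    have h5 : A.card = G.card + (A.filter (fun φ => ¬ Function.Injective φ)).card :=
      (Finset.card_filter_add_card_filter_not _).symm
    have h6 : (A.filter (fun φ => ¬ Function.Injective φ)).card ≤
        ((Finset.univ : Finset ((Fin k ⊕ Fin k) → Fin K)).filter (fun φ => ¬ Function.Injective φ)).card :=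
      Finset.card_le_card (Finset.filter_subset_filter _ (Finset.subset_univ _))
    rw [h5]
    push_cast
    have : (((A.filter (fun φ => ¬ Function.Injective φ)).card : ℕ) : ℝ) ≤
        (((Finset.univ : Finset ((Fin k ⊕ Fin k) → Fin K)).filter (fun φ => ¬ Function.Injective φ)).card : ℕ) := by
      exact_mod_cast h6
    linarith
  have h5 := card_not_injective_le (U := Fin k ⊕ Fin k) hKU
  rw [hcU] at h5
  have h6 : (((2 * k : ℕ) : ℝ)) ^ 2 / K ≤ η / 2 := by
    rw [div_le_div_iff₀ hKpos (by norm_num)]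
    rw [div_le_iff₀ hη0] at hK
    push_cast
    nlinarith
  have h7 : (((2 * k : ℕ) : ℝ)) ^ 2 / K * (K : ℝ) ^ (2 * k) ≤ η / 2 * (K : ℝ) ^ (2 * k) :=
    mul_le_mul_of_nonneg_right h6 (by positivity)
  have h8 : η / 2 * (K : ℝ) ^ (2 * k) ≤ G.card := by linarith
  have h9 := card_image_ge (U := Fin k ⊕ Fin k) (abs_sgn k) hP hm G
    (fun φ hφ => (Finset.mem_filter.mp hφ).2)
  rw [hcU] at h9
  have h10 : (G.image (fun φ => (m * ssum (sgn k) P φ).natAbs)) ⊆ lev μ τ N := by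
    intro n hn
    obtain ⟨φ, hφ, rfl⟩ := Finset.mem_image.mp hn
    have hφ1 := Finset.mem_filter.mp hφ
    have hφ2 := (Finset.mem_filter.mp hφ1.1).2
    rw [lev, Finset.mem_filter, Finset.mem_Icc]
    refine ⟨⟨?_, ?_⟩, ?_⟩
    · apply Int.natAbs_pos.mpr
      exact mul_ne_zero hm (ssum_ne_zero (abs_sgn k) hP hφ1.2)
    · have h11 : |m * ssum (sgn k) P φ| ≤ N := by
        rw [abs_mul]
        have h12 := abs_ssum_le (U := Fin k ⊕ Fin k) (abs_sgn k) (by linarith : (1 : ℤ) ≤ P) φ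
        rw [hcU] at h12
        calc |m| * |ssum (sgn k) P φ| ≤ |m| * (((2 * k : ℕ) : ℤ) * P ^ K) :=
              mul_le_mul_of_nonneg_left h12 (abs_nonneg m)
          _ = 2 * k * |m| * P ^ K := by push_cast; ring
          _ ≤ N := hN
      rw [Int.abs_eq_natAbs] at h11
      exact_mod_cast h11
    · rw [norm_c_natAbs]
      exact hφ2
  have h11 : (G.card : ℝ) ≤ (2 * k : ℝ) ^ (2 * k) * ((lev μ τ N).card : ℝ) := by
    have h12 : G.card ≤ (2 * k) ^ (2 * k) * (lev μ τ N).card :=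
      h9.trans (Nat.mul_le_mul_left _ (Finset.card_le_card h10))
    exact_mod_cast h12
  have h13 : (0 : ℝ) < (2 * k : ℝ) ^ (2 * k) := by positivity
  rw [div_div, div_mul_eq_mul_div, div_le_iff₀ (by positivity)]
  nlinarith

end Pool.Agent.Q83.FL
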