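import Pool.Agent.Q83.FL.B

/-! # Growth of the level sets; frequencies without prescribed divisors -/

namespace Pool.Agent.Q83.FL

open MeasureTheory Filter Topology Q241.FP
open scoped Classical

theorem lower_log (μ : Measure TT) [IsProbabilityMeasure μ] {p : ℕ} (hp : 2 ≤ p)
    (hinv : ∀ n : ℤ, c μ (p * n) = c μ n) {m : ℤ} (hm : m ≠ 0) (hδ : c μ m ≠ 0) {k : ℕ}
    (hk : 1 ≤ k) {t : ℝ} (ht0 : 0 < t) (ht : t < 1) :
    ∃ C : ℝ, 0 < C ∧ ∀ᶠ N : ℕ in atTop,
      C * (Real.log N) ^ (2 * k) ≤ ((lev μ (t * ‖c μ m‖ ^ (2 * k)) N).card : ℝ) := by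
  set P : ℕ := p ^ 2 with hPdef
  have hP : 4 ≤ P := by
    rw [hPdef]
    nlinarith
  have hinvP : ∀ i : ℕ, c μ (m * (P : ℤ) ^ i) = c μ m := by
    intro i
    induction i with
    | zero => simp
    | succ i ih =>
      rw [← ih]
      have e : m * (P : ℤ) ^ (i + 1) = (p : ℤ) * ((p : ℤ) * (m * (P : ℤ) ^ i)) := by
        rw [hPdef]; push_cast; ring
      rw [e, hinv, hinv]
  set M : ℕ := 2 * k * m.natAbs with hM
  have hM1 : 1 ≤ M := by
    have : 0 < m.natAbs := Int.natAbs_pos.mpr hm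
    have : 0 < 2 * k * m.natAbs := by positivity
    omega
  set η := (1 - t) * ‖c μ m‖ ^ (2 * k) with hη
  have hη0 : 0 < η := by
    have : 0 < ‖c μ m‖ := norm_pos_iff.mpr hδ
    have h1t : 0 < 1 - t := by linarith
    positivity
  have hlogP : 0 < Real.log P := Real.log_pos (by exact_mod_cast (by omega : 1 < P))
  set B : ℝ := η / 2 / (2 * k : ℝ) ^ (2 * k) with hB
  have hk1 : (1 : ℝ) ≤ k := by exact_mod_cast hk
  have hB0 : 0 < B := by positivity
  refine ⟨B * (1 / (2 * Real.log P)) ^ (2 * k), by positivity, ?_⟩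
  have hlog : Tendsto (fun N : ℕ => Real.log N) atTop atTop :=
    Real.tendsto_log_atTop.comp tendsto_natCast_atTop_atTop
  filter_upwards [hlog.eventually_ge_atTop (2 * (Real.log M + Real.log P)),
    hlog.eventually_ge_atTop (8 * (k : ℝ) ^ 2 / η * (2 * Real.log P)),
    eventually_ge_atTop (max M 1)] with N h1 h2 h3
  have hN1 : 1 ≤ N := le_trans (le_max_right _ _) h3
  have hNM : M ≤ N := le_trans (le_max_left _ _) h3
  set K : ℕ := Nat.log P (N / M) with hK
  have hq : N / M ≠ 0 := by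
    have : 0 < N / M := Nat.div_pos hNM (by omega)
    omega
  have hK1 : M * P ^ K ≤ N := by
    have := Nat.pow_log_le_self P hq
    calc M * P ^ K ≤ M * (N / M) := Nat.mul_le_mul_left _ this
      _ ≤ N := Nat.mul_div_le N M
  have hK2 : (Real.log N) / (2 * Real.log P) ≤ K := by
    have h4 : N / M < P ^ (K + 1) := Nat.lt_pow_succ_log_self (by omega) _
    have h5 : N < M * P ^ (K + 1) := by
      have h6 : N < M * (N / M + 1) := by
        have := Nat.lt_mul_div_succ N (show 0 < M by omega)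
        exact this
      exact lt_of_lt_of_le h6 (Nat.mul_le_mul_left _ h4)
    have h6 : (N : ℝ) < M * (P : ℝ) ^ (K + 1) := by exact_mod_cast h5
    have hM0 : (0 : ℝ) < M := by exact_mod_cast hM1
    have hP0 : (0 : ℝ) < P := by exact_mod_cast (by omega : 0 < P)
    have hN0 : (0 : ℝ) < N := by exact_mod_cast hN1
    have h7 : Real.log N ≤ Real.log M + (K + 1) * Real.log P := by
      have h8 := Real.log_le_log hN0 h6.le
      rw [Real.log_mul hM0.ne' (by positivity), Real.log_pow] at h8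
      push_cast at h8
      exact h8
    rw [div_le_iff₀ (by positivity)]
    nlinarith
  have hKpos : 0 ≤ Real.log N / (2 * Real.log P) := by
    have : 0 ≤ Real.log N := Real.log_nonneg (by exact_mod_cast hN1)
    positivity
  have h4 : 8 * (k : ℝ) ^ 2 / η ≤ K := by
    refine le_trans ?_ hK2
    rw [le_div_iff₀ (by positivity)]
    exact h2
  have h5 : 2 * (k : ℤ) * |m| * (P : ℤ) ^ K ≤ N := by
    have : ((M * P ^ K : ℕ) : ℤ) ≤ N := by exact_mod_cast hK1
    rw [hM] at this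
    push_cast at this
    rw [Int.abs_eq_natAbs]
    push_cast
    exact this
  have h6 := card_lev_ge μ (P := (P : ℤ)) (by exact_mod_cast (by omega : 3 ≤ P)) hm hinvP hδ hk ht0 ht
    (K := K) (N := N) (by rw [← hη]; exact h4) h5
  refine le_trans ?_ h6
  rw [← hη, ← hB, mul_assoc, ← mul_pow]
  apply mul_le_mul_of_nonneg_left _ hB0.le
  apply pow_le_pow_left₀
  · have : 0 ≤ Real.log N := Real.log_nonneg (by exact_mod_cast hN1)
    positivity
  · rw [one_div_mul_eq_div]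
    exact hK2

/-- Every positive integer is a product of powers of the elements of `Q` and of an integer that no
element of `Q` divides. -/
theorem exists_reduced (Q : Finset ℕ) (hQ : ∀ q ∈ Q, 2 ≤ q) : ∀ n : ℕ, 1 ≤ n →
    ∃ (n' : ℕ) (e : Q → ℕ), 1 ≤ n' ∧ (∀ q ∈ Q, ¬ q ∣ n') ∧ n = n' * ∏ q : Q, (q : ℕ) ^ (e q) := by
  intro n
  induction n using Nat.strong_induction_on with
  | _ n ih =>
    intro hn
    by_cases h : ∃ q ∈ Q, q ∣ n
    · obtain ⟨q, hq, n1, rfl⟩ := h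
      have hq2 := hQ q hq
      have hn1 : 1 ≤ n1 := by
        rcases Nat.eq_zero_or_pos n1 with h0 | h0
        · rw [h0] at hn; simp at hn
        · exact h0
      obtain ⟨n', e, h1, h2, h3⟩ := ih n1 (by nlinarith) hn1
      refine ⟨n', e + (Pi.single (⟨q, hq⟩ : Q) 1 : Q → ℕ), h1, h2, ?_⟩
      have h4 : ∏ x : Q, (x : ℕ) ^ ((e + (Pi.single (⟨q, hq⟩ : Q) 1 : Q → ℕ)) x) =
          (∏ x : Q, (x : ℕ) ^ (e x)) * q := by
        simp_rw [Pi.add_apply, pow_add]
        rw [Finset.prod_mul_distrib]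
        congr 1
        rw [Finset.prod_eq_single (⟨q, hq⟩ : Q)]
        · simp
        · intro b _ hb
          rw [Pi.single_eq_of_ne hb, pow_zero]
        · intro h
          exact absurd (Finset.mem_univ _) h
      rw [h4]
      nth_rewrite 1 [h3]
      ring
    · push Not at h
      exact ⟨n, 0, hn, h, by simp⟩

theorem c_mul_pow {μ : Measure TT} {q : ℕ} (hq : ∀ n : ℤ, c μ (q * n) = c μ n) (n : ℤ) (j : ℕ) :
    c μ (n * (q : ℤ) ^ j) = c μ n := by
  induction j with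
  | zero => simp
  | succ j ih =>
    rw [← ih]
    have e : n * (q : ℤ) ^ (j + 1) = q * (n * (q : ℤ) ^ j) := by ring
    rw [e, hq]

theorem c_mul_prod {μ : Measure TT} {Q : Finset ℕ} (hQ : ∀ q ∈ Q, ∀ n : ℤ, c μ (q * n) = c μ n)
    (n : ℤ) (e : Q → ℕ) : c μ (n * ∏ q : Q, ((q : ℕ) : ℤ) ^ (e q)) = c μ n := by
  have key : ∀ s : Finset Q, c μ (n * ∏ q ∈ s, ((q : ℕ) : ℤ) ^ (e q)) = c μ n := by
    intro s
    induction s using Finset.induction_on with
    | empty => simp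
    | insert a s ha ih =>
      rw [Finset.prod_insert ha, mul_comm (((a : ℕ) : ℤ) ^ (e a)), ← mul_assoc,
        c_mul_pow (hQ a a.2), ih]
  exact key Finset.univ

/-- The frequencies `1 ≤ n ≤ N` not divisible by any element of `Q` with a Fourier coefficient of
absolute value at least `ε`. -/
noncomputable def levR (μ : Measure TT) (Q : Finset ℕ) (ε : ℝ) (N : ℕ) : Finset ℕ :=
  (Finset.Icc 1 N).filter (fun n => (∀ q ∈ Q, ¬ q ∣ n) ∧ ε ≤ ‖c μ (n : ℤ)‖)

theorem card_lev_le {μ : Measure TT} {Q : Finset ℕ} (hQ2 : ∀ q ∈ Q, 2 ≤ q)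
    (hQ : ∀ q ∈ Q, ∀ n : ℤ, c μ (q * n) = c μ n) (ε : ℝ) (N : ℕ) :
    (lev μ ε N).card ≤ (levR μ Q ε N).card * (Nat.log 2 N + 1) ^ Q.card := by
  have hsub : lev μ ε N ⊆
      ((levR μ Q ε N) ×ˢ (Finset.univ : Finset (Q → Fin (Nat.log 2 N + 1)))).image
        (fun x => x.1 * ∏ q : Q, (q : ℕ) ^ (x.2 q : ℕ)) := by
    intro n hn
    rw [lev, Finset.mem_filter, Finset.mem_Icc] at hn
    obtain ⟨n', e, h1, h2, h3⟩ := exists_reduced Q hQ2 n hn.1.1
    have hprod : 1 ≤ ∏ q : Q, (q : ℕ) ^ (e q) := by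
      apply Nat.one_le_iff_ne_zero.mpr
      apply Finset.prod_ne_zero_iff.mpr
      intro q _
      have := hQ2 q q.2
      positivity
    have he : ∀ q : Q, e q < Nat.log 2 N + 1 := by
      intro q
      rw [Nat.lt_succ_iff]
      apply Nat.le_log_of_pow_le (by norm_num)
      calc 2 ^ e q ≤ (q : ℕ) ^ e q := Nat.pow_le_pow_left (hQ2 q q.2) _
        _ ≤ ∏ q : Q, (q : ℕ) ^ (e q) := by
            apply Nat.le_of_dvd (by omega)
            exact Finset.dvd_prod_of_mem (fun q : Q => (q : ℕ) ^ (e q)) (Finset.mem_univ q)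
        _ ≤ n' * ∏ q : Q, (q : ℕ) ^ (e q) := Nat.le_mul_of_pos_left _ h1
        _ ≤ N := by rw [← h3]; exact hn.1.2
    rw [Finset.mem_image]
    refine ⟨(n', fun q => ⟨e q, he q⟩), ?_, ?_⟩
    · rw [Finset.mem_product]
      refine ⟨?_, Finset.mem_univ _⟩
      rw [levR, Finset.mem_filter, Finset.mem_Icc]
      refine ⟨⟨h1, ?_⟩, h2, ?_⟩
      · calc n' ≤ n' * ∏ q : Q, (q : ℕ) ^ (e q) := Nat.le_mul_of_pos_right _ hprod
          _ ≤ N := by rw [← h3]; exact hn.1.2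
      · have h4 : ((n : ℕ) : ℤ) = (n' : ℤ) * ∏ q : Q, ((q : ℕ) : ℤ) ^ (e q) := by
          rw [h3]; push_cast; rfl
        have h5 := hn.2
        rw [h4, c_mul_prod hQ] at h5
        exact h5
    · exact h3.symm
  refine le_trans (Finset.card_le_card hsub) (le_trans Finset.card_image_le ?_)
  rw [Finset.card_product, Finset.card_univ, Fintype.card_fun, Fintype.card_fin, Fintype.card_coe]

theorem lower_log_reduced (μ : Measure TT) [IsProbabilityMeasure μ] {Q : Finset ℕ}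
    (hQ2 : ∀ q ∈ Q, 2 ≤ q) (hQ : ∀ q ∈ Q, ∀ n : ℤ, c μ (q * n) = c μ n) (hne : Q.Nonempty)
    {m : ℤ} (hm : m ≠ 0) (hδ : c μ m ≠ 0) {k : ℕ} (hk : 1 ≤ k) {t : ℝ} (ht0 : 0 < t) (ht : t < 1) :
    ∃ C : ℝ, 0 < C ∧ ∀ᶠ N : ℕ in atTop,
      C * (Real.log N) ^ (2 * k) ≤
        (Real.log N) ^ Q.card * ((levR μ Q (t * ‖c μ m‖ ^ (2 * k)) N).card : ℝ) := by
  obtain ⟨p, hp⟩ := hne
  obtain ⟨C, hC, h⟩ := lower_log μ (hQ2 p hp) (hQ p hp) hm hδ hk ht0 ht
  refine ⟨C / 3 ^ Q.card, by positivity, ?_⟩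
  filter_upwards [h, eventually_ge_atTop 3] with N h1 h3
  have hlog1 : 1 ≤ Real.log N := by
    rw [Real.le_log_iff_exp_le (by positivity)]
    have : Real.exp 1 < 3 := lt_trans Real.exp_one_lt_d9 (by norm_num)
    have h4 : (3 : ℝ) ≤ N := by exact_mod_cast h3
    linarith
  have h2 : ((lev μ (t * ‖c μ m‖ ^ (2 * k)) N).card : ℝ) ≤
      ((levR μ Q (t * ‖c μ m‖ ^ (2 * k)) N).card : ℝ) * ((Nat.log 2 N : ℝ) + 1) ^ Q.card := by
    exact_mod_cast card_lev_le hQ2 hQ _ N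
  have h4 : (Nat.log 2 N : ℝ) + 1 ≤ 3 * Real.log N := by
    have h5 : ((2 ^ Nat.log 2 N : ℕ) : ℝ) ≤ N := by
      exact_mod_cast Nat.pow_log_le_self 2 (by omega)
    have h6 : (Nat.log 2 N : ℝ) * Real.log 2 ≤ Real.log N := by
      have := Real.log_le_log (by positivity) h5
      push_cast at this
      rw [Real.log_pow] at this
      exact this
    have h7 : 0.69 < Real.log 2 := lt_trans (by norm_num) Real.log_two_gt_d9
    have h8 : (0 : ℝ) ≤ Nat.log 2 N := by positivity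
    nlinarith
  have h5 : ((Nat.log 2 N : ℝ) + 1) ^ Q.card ≤ (3 * Real.log N) ^ Q.card :=
    pow_le_pow_left₀ (by positivity) h4 _
  rw [div_mul_eq_mul_div, div_le_iff₀ (by positivity)]
  calc C * (Real.log N) ^ (2 * k) ≤ _ := h1
    _ ≤ _ := h2
    _ ≤ ((levR μ Q (t * ‖c μ m‖ ^ (2 * k)) N).card : ℝ) * (3 * Real.log N) ^ Q.card :=
        mul_le_mul_of_nonneg_left h5 (by positivity)
    _ = _ := by rw [mul_pow]; ring

theorem levR_anti (μ : Measure TT) (Q : Finset ℕ) {ε ε' : ℝ} (h : ε ≤ ε') (N : ℕ) :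
    (levR μ Q ε' N).card ≤ (levR μ Q ε N).card := by
  apply Finset.card_le_card
  intro n hn
  rw [levR, Finset.mem_filter] at hn ⊢
  exact ⟨hn.1, hn.2.1, h.trans hn.2.2⟩

/-- For every power `A` some level set has at least `C (log N) ^ A` elements. -/
theorem every_power (μ : Measure TT) [IsProbabilityMeasure μ] {Q : Finset ℕ}
    (hQ2 : ∀ q ∈ Q, 2 ≤ q) (hQ : ∀ q ∈ Q, ∀ n : ℤ, c μ (q * n) = c μ n) (hne : Q.Nonempty)
    (hμ : μ ≠ volume) (A : ℕ) :
    ∃ ε : ℝ, 0 < ε ∧ ∃ C : ℝ, 0 < C ∧ ∀ᶠ N : ℕ in atTop,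
      C * (Real.log N) ^ A ≤ ((levR μ Q ε N).card : ℝ) := by
  have hcoef : ∃ m : ℤ, m ≠ 0 ∧ c μ m ≠ 0 := by
    by_contra hcon
    push Not at hcon
    apply hμ
    have := volume_prob
    apply fourier_ext
    intro n
    by_cases hn : n = 0
    · rw [hn, c_zero, c_zero]
    · rw [hcon n hn, c, integral_fourier n hn]
  obtain ⟨m, hm, hδ⟩ := hcoef
  obtain ⟨C, hC, h⟩ := lower_log_reduced μ hQ2 hQ hne hm hδ (k := A + Q.card + 1) (by omega)
    (t := 1 / 2) (by norm_num) (by norm_num)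
  have hδ0 : 0 < ‖c μ m‖ := norm_pos_iff.mpr hδ
  refine ⟨_, (by positivity : 0 < 1 / 2 * ‖c μ m‖ ^ (2 * (A + Q.card + 1))), C, hC, ?_⟩
  filter_upwards [h, eventually_ge_atTop 3] with N h1 h3
  have hlog1 : 1 ≤ Real.log N := by
    rw [Real.le_log_iff_exp_le (by positivity)]
    have : Real.exp 1 < 3 := lt_trans Real.exp_one_lt_d9 (by norm_num)
    have h4 : (3 : ℝ) ≤ N := by exact_mod_cast h3
    linarith
  have h5 : (Real.log N) ^ (Q.card + A) ≤ (Real.log N) ^ (2 * (A + Q.card + 1)) :=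
    pow_le_pow_right₀ hlog1 (by omega)
  have h6 : (Real.log N) ^ Q.card * (C * (Real.log N) ^ A) ≤
      (Real.log N) ^ Q.card *
        ((levR μ Q (1 / 2 * ‖c μ m‖ ^ (2 * (A + Q.card + 1))) N).card : ℝ) := by
    refine le_trans ?_ h1
    calc (Real.log N) ^ Q.card * (C * (Real.log N) ^ A) = C * (Real.log N) ^ (Q.card + A) := by
          rw [pow_add]; ring
      _ ≤ _ := mul_le_mul_of_nonneg_left h5 hC.le
  exact le_of_mul_le_mul_left h6 (by positivity)

/-- Rigidity: level sets bounded by a fixed power of the logarithm force Lebesgue measure. -/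
theorem rigid (μ : Measure TT) [IsProbabilityMeasure μ] {Q : Finset ℕ}
    (hQ2 : ∀ q ∈ Q, 2 ≤ q) (hQ : ∀ q ∈ Q, ∀ n : ℤ, c μ (q * n) = c μ n) (hne : Q.Nonempty)
    {A : ℕ} (h : ∀ ε : ℝ, 0 < ε → ∃ C : ℝ, ∃ᶠ N : ℕ in atTop,
      ((levR μ Q ε N).card : ℝ) ≤ C * (Real.log N) ^ A) : μ = volume := by
  by_contra hμ
  obtain ⟨ε, hε, C, hC, h1⟩ := every_power μ hQ2 hQ hne hμ (A + 1)
  obtain ⟨D, hD⟩ := h ε hε
  have hlog : Tendsto (fun N : ℕ => Real.log N) atTop atTop :=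
    Real.tendsto_log_atTop.comp tendsto_natCast_atTop_atTop
  obtain ⟨N, h2, h3, h4, h5⟩ := (hD.and_eventually (h1.and
    ((hlog.eventually_gt_atTop (D / C)).and (hlog.eventually_gt_atTop 1)))).exists
  have h6 : C * (Real.log N) ^ (A + 1) ≤ D * (Real.log N) ^ A := h3.trans h2
  have h7 : (Real.log N) ^ A * (C * Real.log N) ≤ (Real.log N) ^ A * D := by
    calc (Real.log N) ^ A * (C * Real.log N) = C * (Real.log N) ^ (A + 1) := by ring
      _ ≤ _ := h6
      _ = _ := by ring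
  have h8 : C * Real.log N ≤ D := le_of_mul_le_mul_left h7 (by positivity)
  rw [div_lt_iff₀ hC] at h4
  linarith

end Pool.Agent.Q83.FL
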