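import Pool.Agent.Q83.FL.C

/-! # Riesz products: the exponent is sharp -/

namespace Pool.Agent.Q83.FL

open MeasureTheory Filter Topology Q241.FP
open scoped Classical

/-- Fourier coefficients of the partial Riesz products. -/
noncomputable def w (P : ℤ) : ℕ → ℤ → ℝ
  | 0, n => if n = 0 then 1 else 0
  | K + 1, n => w P K n + (w P K (n + P ^ K) + w P K (n - P ^ K)) / 2

theorem w_eq_zero {P : ℤ} (hP : 3 ≤ P) : ∀ (K : ℕ) (n : ℤ), P ^ K ≤ 2 * |n| → w P K n = 0 := by
  intro K
  induction K with
  | zero =>
    intro n hn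
    have : n ≠ 0 := by
      rintro rfl
      simp at hn
    simp [w, this]
  | succ K ih =>
    intro n hn
    have hpos : (0 : ℤ) < P ^ K := by positivity
    have h0 : 3 * P ^ K ≤ 2 * |n| := by
      calc 3 * P ^ K ≤ P * P ^ K := by nlinarith
        _ = P ^ (K + 1) := by ring
        _ ≤ _ := hn
    have h1 : |n| - P ^ K ≤ |n + P ^ K| := by
      have := abs_sub_abs_le_abs_sub n (-(P ^ K))
      rw [abs_neg, abs_of_pos hpos, sub_neg_eq_add] at this
      exact this
    have h2 : |n| - P ^ K ≤ |n - P ^ K| := by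
      have := abs_sub_abs_le_abs_sub n (P ^ K)
      rw [abs_of_pos hpos] at this
      exact this
    rw [w, ih n (by linarith), ih _ (by linarith), ih _ (by linarith)]
    simp

theorem w_stable {P : ℤ} (hP : 3 ≤ P) {K : ℕ} {n : ℤ} (h : 2 * |n| ≤ P ^ K) :
    w P (K + 1) n = w P K n := by
  have hpos : (0 : ℤ) < P ^ K := by positivity
  have h1 : P ^ K - |n| ≤ |n + P ^ K| := by
    have := abs_sub_abs_le_abs_sub (P ^ K) (-n)
    rw [abs_neg, abs_of_pos hpos, sub_neg_eq_add, add_comm] at this
    exact this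
  have h2 : P ^ K - |n| ≤ |n - P ^ K| := by
    have := abs_sub_abs_le_abs_sub (P ^ K) n
    rw [abs_of_pos hpos, abs_sub_comm] at this
    exact this
  rw [w, w_eq_zero hP K (n + P ^ K) (by linarith), w_eq_zero hP K (n - P ^ K) (by linarith)]
  simp

theorem w_stable_le {P : ℤ} (hP : 3 ≤ P) {K : ℕ} {n : ℤ} (h : 2 * |n| ≤ P ^ K) :
    ∀ K' : ℕ, K ≤ K' → w P K' n = w P K n := by
  intro K' hK
  induction K', hK using Nat.le_induction with
  | base => rfl
  | succ K' hK ih =>
    rw [w_stable hP (h.trans (pow_le_pow_right₀ (by linarith) hK)), ih]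

theorem w_mul {P : ℤ} (hP : 3 ≤ P) : ∀ (K : ℕ) (n : ℤ), w P (K + 1) (P * n) = w P K n := by
  intro K
  induction K with
  | zero =>
    intro n
    have h1 : P * n + 1 ≠ 0 := by
      intro h
      have : P ∣ 1 := ⟨-n, by linarith⟩
      have := Int.le_of_dvd one_pos this
      linarith
    have h2 : P * n - 1 ≠ 0 := by
      intro h
      have : P ∣ 1 := ⟨n, by linarith⟩
      have := Int.le_of_dvd one_pos this
      linarith
    have h3 : P * n = 0 ↔ n = 0 := by
      rw [mul_eq_zero]
      constructor
      · rintro (h | h)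
        · linarith
        · exact h
      · intro h
        exact Or.inr h
    simp only [w, pow_zero, h1, h2, if_false, h3]
    simp
  | succ K ih =>
    intro n
    have e1 : P * n + P ^ (K + 1) = P * (n + P ^ K) := by ring
    have e2 : P * n - P ^ (K + 1) = P * (n - P ^ K) := by ring
    show w P (K + 1) (P * n) + (w P (K + 1) (P * n + P ^ (K + 1)) +
      w P (K + 1) (P * n - P ^ (K + 1))) / 2 = w P K n + (w P K (n + P ^ K) + w P K (n - P ^ K)) / 2
    rw [e1, e2, ih, ih, ih]

theorem w_nonneg (P : ℤ) : ∀ (K : ℕ) (n : ℤ), 0 ≤ w P K n := by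
  intro K
  induction K with
  | zero => intro n; simp only [w]; split_ifs <;> norm_num
  | succ K ih =>
    intro n
    rw [w]
    have := ih n
    have := ih (n + P ^ K)
    have := ih (n - P ^ K)
    linarith

/-- One of the three cases of the recursion. -/
theorem w_cases {P : ℤ} (hP : 3 ≤ P) (K : ℕ) (n : ℤ) :
    w P (K + 1) n = w P K n ∨ w P (K + 1) n = w P K (n - P ^ K) / 2 ∨
      w P (K + 1) n = w P K (n + P ^ K) / 2 := by
  have hpos : (0 : ℤ) < P ^ K := by positivity
  by_cases h : 2 * |n| ≤ P ^ K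
  · exact Or.inl (w_stable hP h)
  · push Not at h
    right
    rcases le_total 0 n with h0 | h0
    · left
      rw [abs_of_nonneg h0] at h
      rw [w, w_eq_zero hP K n (by rw [abs_of_nonneg h0]; linarith),
        w_eq_zero hP K (n + P ^ K) (by rw [abs_of_nonneg (by linarith)]; linarith)]
      ring
    · right
      rw [abs_of_nonpos h0] at h
      rw [w, w_eq_zero hP K n (by rw [abs_of_nonpos h0]; linarith),
        w_eq_zero hP K (n - P ^ K) (by rw [abs_of_nonpos (by linarith)]; linarith)]
      ring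

theorem w_le_one {P : ℤ} (hP : 3 ≤ P) : ∀ (K : ℕ) (n : ℤ), w P K n ≤ 1 := by
  intro K
  induction K with
  | zero => intro n; simp only [w]; split_ifs <;> norm_num
  | succ K ih =>
    intro n
    rcases w_cases hP K n with h | h | h <;> rw [h]
    · exact ih n
    · have := ih (n - P ^ K); linarith
    · have := ih (n + P ^ K); linarith

/-- zero and the signed powers below `P ^ K` -/
noncomputable def TT' (P : ℤ) (K : ℕ) : Finset ℤ :=
  insert 0 ((Finset.range K).image (fun i => P ^ i) ∪ (Finset.range K).image (fun i => -P ^ i))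

theorem card_TT' (P : ℤ) (K : ℕ) : (TT' P K).card ≤ 2 * K + 1 := by
  unfold TT'
  refine le_trans (Finset.card_insert_le _ _) ?_
  have h1 := Finset.card_union_le ((Finset.range K).image (fun i => P ^ i))
    ((Finset.range K).image (fun i => -P ^ i))
  have h2 : ((Finset.range K).image (fun i => P ^ i)).card ≤ K :=
    Finset.card_image_le.trans (by simp)
  have h3 : ((Finset.range K).image (fun i => -P ^ i)).card ≤ K :=
    Finset.card_image_le.trans (by simp)
  omega

/-- sums of `s` elements -/
noncomputable def SS (P : ℤ) (K : ℕ) : ℕ → Finset ℤ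
  | 0 => {0}
  | s + 1 => (SS P K s ×ˢ TT' P K).image (fun x => x.1 + x.2)

theorem card_SS (P : ℤ) (K : ℕ) : ∀ s : ℕ, (SS P K s).card ≤ (2 * K + 1) ^ s := by
  intro s
  induction s with
  | zero => simp [SS]
  | succ s ih =>
    rw [SS]
    refine le_trans Finset.card_image_le ?_
    rw [Finset.card_product, pow_succ]
    exact Nat.mul_le_mul ih (card_TT' P K)

theorem TT'_mono (P : ℤ) (K : ℕ) : TT' P K ⊆ TT' P (K + 1) := by
  intro x hx
  simp only [TT', Finset.mem_insert, Finset.mem_union, Finset.mem_image, Finset.mem_range] at hx ⊢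
  rcases hx with h | ⟨i, hi, h⟩ | ⟨i, hi, h⟩
  · exact Or.inl h
  · exact Or.inr (Or.inl ⟨i, by omega, h⟩)
  · exact Or.inr (Or.inr ⟨i, by omega, h⟩)

theorem SS_mono (P : ℤ) (K : ℕ) : ∀ s : ℕ, SS P K s ⊆ SS P (K + 1) s := by
  intro s
  induction s with
  | zero => simp [SS]
  | succ s ih =>
    rw [SS, SS]
    exact Finset.image_subset_image (Finset.product_subset_product ih (TT'_mono P K))

theorem mem_SS {P : ℤ} (hP : 3 ≤ P) : ∀ (K s : ℕ) (n : ℤ), (1 / 2 : ℝ) ^ (s + 1) < w P K n →
    n ∈ SS P K s := by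
  intro K
  induction K with
  | zero =>
    intro s n h
    have hn : n = 0 := by
      by_contra hn
      simp only [w, hn, if_false] at h
      exact absurd h (not_lt.mpr (by positivity))
    subst hn
    clear h
    induction s with
    | zero => simp [SS]
    | succ s ih =>
      rw [SS, Finset.mem_image]
      exact ⟨(0, 0), by simp [ih, TT'], by simp⟩
  | succ K ih =>
    intro s n h
    rcases w_cases hP K n with h1 | h1 | h1
    · rw [h1] at h
      exact SS_mono P K s (ih s n h)
    · rw [h1] at h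
      have h2 : (1 / 2 : ℝ) ^ s < w P K (n - P ^ K) := by
        rw [pow_succ] at h; linarith
      rcases s with _ | s
      · have := w_le_one hP K (n - P ^ K)
        simp at h2
        linarith
      · rw [SS, Finset.mem_image]
        refine ⟨(n - P ^ K, P ^ K), ?_, by simp⟩
        rw [Finset.mem_product]
        refine ⟨SS_mono P K s (ih s _ h2), ?_⟩
        simp only [TT', Finset.mem_insert, Finset.mem_union, Finset.mem_image, Finset.mem_range]
        exact Or.inr (Or.inl ⟨K, by omega, rfl⟩)
    · rw [h1] at h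
      have h2 : (1 / 2 : ℝ) ^ s < w P K (n + P ^ K) := by
        rw [pow_succ] at h; linarith
      rcases s with _ | s
      · have := w_le_one hP K (n + P ^ K)
        simp at h2
        linarith
      · rw [SS, Finset.mem_image]
        refine ⟨(n + P ^ K, -P ^ K), ?_, by simp⟩
        rw [Finset.mem_product]
        refine ⟨SS_mono P K s (ih s _ h2), ?_⟩
        simp only [TT', Finset.mem_insert, Finset.mem_union, Finset.mem_image, Finset.mem_range]
        exact Or.inr (Or.inr ⟨K, by omega, rfl⟩)

/-- partial Riesz product -/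
noncomputable def rz (P : ℤ) (K : ℕ) (x : TT) : ℝ :=
  ∏ i ∈ Finset.range K, (1 + (fourier (P ^ i) x : ℂ).re)

theorem rz_nonneg (P : ℤ) (K : ℕ) (x : TT) : 0 ≤ rz P K x := by
  apply Finset.prod_nonneg
  intro i _
  have h1 : ‖(fourier (P ^ i) x : ℂ)‖ = 1 := by rw [fourier_apply, Circle.norm_coe]
  have h2 := Complex.abs_re_le_norm (fourier (P ^ i) x : ℂ)
  rw [h1] at h2
  have := neg_abs_le (fourier (P ^ i) x : ℂ).re
  linarith

theorem continuous_rz (P : ℤ) (K : ℕ) : Continuous (rz P K) := by
  unfold rz
  apply continuous_finsetProd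
  intro i _
  exact continuous_const.add (Complex.continuous_re.comp (fourier _).continuous)

theorem integral_rz (P : ℤ) : ∀ (K : ℕ) (n : ℤ),
    ∫ x : TT, (fourier n x : ℂ) * ((rz P K x : ℝ) : ℂ) = ((w P K n : ℝ) : ℂ) := by
  have hint : ∀ f : TT → ℂ, Continuous f → Integrable f (volume : Measure TT) := by
    intro f hf
    have := volume_prob
    exact (BoundedContinuousFunction.mkOfCompact ⟨f, hf⟩).integrable _
  intro K
  induction K with
  | zero =>
    intro n
    simp only [rz, Finset.range_zero, Finset.prod_empty, Complex.ofReal_one, mul_one, w]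
    by_cases hn : n = 0
    · rw [if_pos hn, hn]
      have := volume_prob
      simp
    · rw [if_neg hn, integral_fourier n hn]
      simp
  | succ K ih =>
    intro n
    have h1 : ∀ x : TT, (fourier n x : ℂ) * ((rz P (K + 1) x : ℝ) : ℂ) =
        (fourier n x : ℂ) * ((rz P K x : ℝ) : ℂ) +
        ((1 / 2 : ℂ) * ((fourier (n + P ^ K) x : ℂ) * ((rz P K x : ℝ) : ℂ)) +
        (1 / 2 : ℂ) * ((fourier (n - P ^ K) x : ℂ) * ((rz P K x : ℝ) : ℂ))) := by
      intro x
      have h2 : rz P (K + 1) x = rz P K x * (1 + (fourier (P ^ K) x : ℂ).re) := by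
        rw [rz, Finset.prod_range_succ, rz]
      have h3 : ((fourier (P ^ K) x : ℂ).re : ℂ) =
          ((fourier (P ^ K) x : ℂ) + fourier (-(P ^ K)) x) / 2 := by
        rw [fourier_neg, Complex.re_eq_add_conj]
      rw [h2, Complex.ofReal_mul, Complex.ofReal_add, h3, sub_eq_add_neg n, fourier_add, fourier_add]
      push_cast
      ring
    have hc : ∀ j : ℤ, Continuous fun x : TT => (fourier j x : ℂ) * ((rz P K x : ℝ) : ℂ) := by
      intro j
      exact (fourier j).continuous.mul (Complex.continuous_ofReal.comp (continuous_rz P K))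
    have hi : ∀ j : ℤ, Integrable (fun x : TT => (fourier j x : ℂ) * ((rz P K x : ℝ) : ℂ))
        (volume : Measure TT) := fun j => hint _ (hc j)
    have hi2 : ∀ j : ℤ, Integrable
        (fun x : TT => (1 / 2 : ℂ) * ((fourier j x : ℂ) * ((rz P K x : ℝ) : ℂ)))
        (volume : Measure TT) := fun j => (hi j).const_mul _
    have h4 : ∫ x : TT, (fourier n x : ℂ) * ((rz P (K + 1) x : ℝ) : ℂ) =
        (∫ x : TT, (fourier n x : ℂ) * ((rz P K x : ℝ) : ℂ)) +
        ((1 / 2 : ℂ) * (∫ x : TT, (fourier (n + P ^ K) x : ℂ) * ((rz P K x : ℝ) : ℂ)) +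
        (1 / 2 : ℂ) * (∫ x : TT, (fourier (n - P ^ K) x : ℂ) * ((rz P K x : ℝ) : ℂ))) := by
      have hi3 : Integrable (fun x : TT => (1 / 2 : ℂ) * ((fourier (n + P ^ K) x : ℂ) *
          ((rz P K x : ℝ) : ℂ)) + (1 / 2 : ℂ) * ((fourier (n - P ^ K) x : ℂ) *
          ((rz P K x : ℝ) : ℂ))) (volume : Measure TT) := (hi2 _).add (hi2 _)
      rw [← integral_const_mul, ← integral_const_mul, ← integral_add (hi2 _) (hi2 _),
        ← integral_add (hi n) hi3]
      exact integral_congr_ae (Filter.Eventually.of_forall h1)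
    rw [h4, ih, ih, ih, w]
    push_cast
    ring

/-- the partial Riesz products as probability measures -/
theorem exists_partial {P : ℤ} (hP : 3 ≤ P) (K : ℕ) :
    ∃ ν : ProbabilityMeasure TT, ∀ n : ℤ, c (ν : Measure TT) n = ((w P K n : ℝ) : ℂ) := by
  have hm : Measurable (rz P K) := (continuous_rz P K).measurable
  set ν : Measure TT := (volume : Measure TT).withDensity (fun x => ENNReal.ofReal (rz P K x)) with hν
  have hcoef : ∀ n : ℤ, c ν n = ((w P K n : ℝ) : ℂ) := by
    intro n
    rw [c, hν, integral_withDensity_eq_integral_toReal_smul hm.ennreal_ofReal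
      (Filter.Eventually.of_forall fun x => ENNReal.ofReal_lt_top), ← integral_rz]
    apply integral_congr_ae
    filter_upwards with x
    rw [ENNReal.toReal_ofReal (rz_nonneg P K x), Complex.real_smul, mul_comm]
  have hw0 : w P K 0 = 1 := by
    have := w_stable_le hP (K := 0) (n := 0) (by simp) K (Nat.zero_le _)
    rw [this]
    simp [w]
  have hprob : IsProbabilityMeasure ν := by
    constructor
    rw [hν, withDensity_apply _ MeasurableSet.univ, Measure.restrict_univ]
    have h1 : ∫ x : TT, rz P K x = 1 := by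
      have := integral_rz P K 0
      rw [hw0] at this
      simp only [fourier_zero, one_mul] at this
      have h9 : ((∫ x : TT, rz P K x : ℝ) : ℂ) = ∫ x : TT, ((rz P K x : ℝ) : ℂ) :=
        integral_ofReal.symm
      rw [← h9] at this
      exact_mod_cast this
    have hint : Integrable (rz P K) (volume : Measure TT) := by
      have := volume_prob
      exact (BoundedContinuousFunction.mkOfCompact ⟨_, continuous_rz P K⟩).integrable _
    rw [← ofReal_integral_eq_lintegral_ofReal hint
      (Filter.Eventually.of_forall fun x => rz_nonneg P K x), h1, ENNReal.ofReal_one]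
  exact ⟨⟨ν, hprob⟩, hcoef⟩

/-- The Riesz product `∏ (1 + cos (2 π P ^ i x))`. -/
theorem exists_riesz {P : ℤ} (hP : 3 ≤ P) :
    ∃ ν : Measure TT, IsProbabilityMeasure ν ∧
      ∀ (K : ℕ) (n : ℤ), 2 * |n| ≤ P ^ K → c ν n = ((w P K n : ℝ) : ℂ) := by
  choose ν hν using exists_partial hP
  let F : Ultrafilter ℕ := Ultrafilter.of atTop
  have hF : (F : Filter ℕ) ≤ atTop := Ultrafilter.of_le atTop
  let L : ProbabilityMeasure TT := (F.map ν).lim
  have hL : Tendsto ν F (𝓝 L) := (F.map ν).le_nhds_lim
  refine ⟨L, inferInstance, fun K n hn => ?_⟩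
  have h1 := (ProbabilityMeasure.tendsto_iff_forall_integral_rclike_tendsto ℂ).mp hL
    (BoundedContinuousFunction.mkOfCompact (fourier n))
  have h2 : Tendsto (fun i => c (ν i : Measure TT) n) F (𝓝 (c (L : Measure TT) n)) := h1
  have h3 : Tendsto (fun i => c (ν i : Measure TT) n) F (𝓝 ((w P K n : ℝ) : ℂ)) := by
    apply Tendsto.congr' _ tendsto_const_nhds
    apply hF
    filter_upwards [eventually_ge_atTop K] with i hi
    rw [hν, w_stable_le hP hn i hi]
  exact tendsto_nhds_unique h2 h3

end Pool.Agent.Q83.FL
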