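import Pool.Agent.Q83.FL.D

/-! # Sharpness: invariant measures with small level sets -/

namespace Pool.Agent.Q83.FL

open MeasureTheory Filter Topology Q241.FP
open scoped Classical

theorem riesz_inv {P : ℤ} (hP : 3 ≤ P) {ν : Measure TT}
    (h : ∀ (K : ℕ) (n : ℤ), 2 * |n| ≤ P ^ K → c ν n = ((w P K n : ℝ) : ℂ)) (n : ℤ) :
    c ν (P * n) = c ν n := by
  obtain ⟨K, hK⟩ : ∃ K : ℕ, 2 * |n| ≤ P ^ K := by
    refine ⟨(2 * |n|).toNat, ?_⟩
    have h1 : (2 * |n|) = (((2 * |n|).toNat : ℕ) : ℤ) := by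
      rw [Int.toNat_of_nonneg (by positivity)]
    have h2 : (2 * |n|).toNat < 2 ^ (2 * |n|).toNat := Nat.lt_two_pow_self
    have h3 : (((2 * |n|).toNat : ℕ) : ℤ) ≤ 2 ^ (2 * |n|).toNat := by exact_mod_cast h2.le
    have h4 : (2 : ℤ) ^ (2 * |n|).toNat ≤ P ^ (2 * |n|).toNat :=
      pow_le_pow_left₀ (by norm_num) (by linarith) _
    linarith
  rw [h K n hK, h (K + 1) (P * n), w_mul hP]
  rw [abs_mul, abs_of_nonneg (by linarith : (0 : ℤ) ≤ P), pow_succ]
  nlinarith [abs_nonneg n]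

theorem riesz_norm {P : ℤ} {ν : Measure TT}
    (h : ∀ (K : ℕ) (n : ℤ), 2 * |n| ≤ P ^ K → c ν n = ((w P K n : ℝ) : ℂ)) {K : ℕ} {n : ℤ}
    (hn : 2 * |n| ≤ P ^ K) : ‖c ν n‖ = w P K n := by
  rw [h K n hn, Complex.norm_real, Real.norm_eq_abs, abs_of_nonneg (w_nonneg P K n)]

/-- Upper bound for the level sets of the Riesz product. -/
theorem riesz_upper {P : ℕ} (hP : 3 ≤ P) {ν : Measure TT}
    (h : ∀ (K : ℕ) (n : ℤ), 2 * |n| ≤ (P : ℤ) ^ K → c ν n = ((w P K n : ℝ) : ℂ)) (s : ℕ) {ε : ℝ}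
    (hε : (1 / 2 : ℝ) ^ (s + 1) < ε) :
    ∀ N : ℕ, 2 ≤ N → ((lev ν ε N).card : ℝ) ≤ 9 ^ s * (Real.log N) ^ s := by
  intro N hN
  set K : ℕ := Nat.log P (2 * N) + 1 with hK
  have h1 : 2 * N < P ^ K := Nat.lt_pow_succ_log_self (by omega) _
  have hsub : (lev ν ε N).image (fun n : ℕ => (n : ℤ)) ⊆ SS P K s := by
    intro z hz
    obtain ⟨n, hn, rfl⟩ := Finset.mem_image.mp hz
    rw [lev, Finset.mem_filter, Finset.mem_Icc] at hn
    have h2 : 2 * |(n : ℤ)| ≤ (P : ℤ) ^ K := by
      have h3 : 2 * n ≤ P ^ K := by omega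
      rw [abs_of_nonneg (by positivity)]
      exact_mod_cast h3
    apply mem_SS (by exact_mod_cast hP)
    rw [← riesz_norm h h2]
    exact lt_of_lt_of_le hε hn.2
  have h2 : (lev ν ε N).card ≤ (2 * K + 1) ^ s := by
    have h3 := Finset.card_le_card hsub
    rw [Finset.card_image_of_injective _ Nat.cast_injective] at h3
    exact h3.trans (card_SS _ _ _)
  have h3 : ((2 * K + 1 : ℕ) : ℝ) ≤ 9 * Real.log N := by
    have h4 : ((P ^ Nat.log P (2 * N) : ℕ) : ℝ) ≤ ((2 * N : ℕ) : ℝ) := by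
      exact_mod_cast Nat.pow_log_le_self P (by omega)
    have h5 : (Nat.log P (2 * N) : ℝ) * Real.log P ≤ Real.log 2 + Real.log N := by
      have := Real.log_le_log (by positivity) h4
      push_cast at this
      rw [Real.log_pow, Real.log_mul (by norm_num) (by positivity)] at this
      exact this
    have h6 : 1 < Real.log P := by
      rw [Real.lt_log_iff_exp_lt (by positivity)]
      have : Real.exp 1 < 3 := lt_trans Real.exp_one_lt_d9 (by norm_num)
      have h7 : (3 : ℝ) ≤ P := by exact_mod_cast hP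
      linarith
    have h7 : Real.log 2 ≤ Real.log N := Real.log_le_log (by norm_num) (by exact_mod_cast hN)
    have h8 : 0.69 < Real.log 2 := lt_trans (by norm_num) Real.log_two_gt_d9
    have h9 : (Nat.log P (2 * N) : ℝ) ≤ 2 * Real.log N := by
      have h10 : (0 : ℝ) ≤ Nat.log P (2 * N) := by positivity
      nlinarith
    rw [hK]
    push_cast
    linarith
  calc ((lev ν ε N).card : ℝ) ≤ (((2 * K + 1) ^ s : ℕ) : ℝ) := by exact_mod_cast h2
    _ = ((2 * K + 1 : ℕ) : ℝ) ^ s := by push_cast; rfl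
    _ ≤ (9 * Real.log N) ^ s := pow_le_pow_left₀ (by positivity) h3 _
    _ = _ := by rw [mul_pow]

theorem riesz_one {P : ℤ} (hP : 3 ≤ P) {ν : Measure TT}
    (h : ∀ (K : ℕ) (n : ℤ), 2 * |n| ≤ P ^ K → c ν n = ((w P K n : ℝ) : ℂ)) : c ν 1 = 1 / 2 := by
  rw [h 1 1 (by simp; linarith)]
  simp [w]

/-- The average of a measure and its image under `x ↦ p x`. -/
theorem exists_average {p : ℕ} (ν : Measure TT) [IsProbabilityMeasure ν] :
    ∃ μ : Measure TT, IsProbabilityMeasure μ ∧ ∀ n : ℤ, c μ n = (c ν n + c ν (p * n)) / 2 := by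
  refine ⟨(2⁻¹ : ENNReal) • (ν + dil p ν), ?_, ?_⟩
  · constructor
    rw [Measure.smul_apply, Measure.add_apply, measure_univ, measure_univ, smul_eq_mul,
      one_add_one_eq_two]
    exact ENNReal.inv_mul_cancel (by norm_num) (by norm_num)
  · intro n
    rw [c, integral_smul_measure, integral_add_measure (integrable_fourier n ν)
      (integrable_fourier n (dil p ν))]
    have : ∫ x, (fourier n x : ℂ) ∂(dil p ν) = c ν (p * n) := c_dil p ν n
    rw [this]
    rw [ENNReal.toReal_inv, Complex.real_smul]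
    show _ * (c ν n + c ν (p * n)) = _
    simp
    ring

theorem exists_small_levels {p : ℕ} (hp : 2 ≤ p) :
    ∃ μ : Measure TT, IsProbabilityMeasure μ ∧ (∀ n : ℤ, c μ (p * n) = c μ n) ∧ μ ≠ volume ∧
      ∀ ε : ℝ, 0 < ε → ∃ (A : ℕ) (C : ℝ), ∀ N : ℕ, 2 ≤ N →
        ((lev μ ε N).card : ℝ) ≤ C * (Real.log N) ^ A := by
  set P : ℕ := p ^ 2 with hPdef
  have hP : 3 ≤ P := by
    rw [hPdef]
    nlinarith
  obtain ⟨ν, hν, h⟩ := exists_riesz (P := (P : ℤ)) (by exact_mod_cast hP)
  obtain ⟨μ, hμ, hc⟩ := exists_average (p := p) ν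
  have hinv := riesz_inv (P := (P : ℤ)) (by exact_mod_cast hP) h
  refine ⟨μ, hμ, ?_, ?_, ?_⟩
  · intro n
    rw [hc, hc]
    have e : (p : ℤ) * (p * n) = (P : ℤ) * n := by rw [hPdef]; push_cast; ring
    rw [e, hinv, add_comm]
  · intro hvol
    have h1 : c μ 1 = 0 := by rw [hvol]; exact integral_fourier 1 one_ne_zero
    rw [hc, riesz_one (P := (P : ℤ)) (by exact_mod_cast hP) h, mul_one] at h1
    have h2 : c ν p = ((w P 1 p : ℝ) : ℂ) := by
      apply h
      rw [abs_of_nonneg (by positivity), hPdef]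
      push_cast
      rw [pow_one]
      have : (2 : ℤ) ≤ p := by exact_mod_cast hp
      nlinarith
    rw [h2] at h1
    have h3 := w_nonneg (P : ℤ) 1 p
    have h4 : (((1 / 2 + w P 1 p) / 2 : ℝ) : ℂ) = 0 := by
      rw [← h1]; push_cast; ring
    have h5 : (1 / 2 + w P 1 p) / 2 = (0 : ℝ) := by exact_mod_cast h4
    linarith
  · intro ε hε
    obtain ⟨s, hs⟩ : ∃ s : ℕ, (1 / 2 : ℝ) ^ s < ε := exists_pow_lt_of_lt_one hε (by norm_num)
    have hs' : (1 / 2 : ℝ) ^ (s + 1) < ε := by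
      refine lt_of_le_of_lt ?_ hs
      exact pow_le_pow_of_le_one (by norm_num) (by norm_num) (by omega)
    set D : ℝ := Real.log p / Real.log 2 + 1 with hD
    have hlog2 : 0 < Real.log 2 := Real.log_pos (by norm_num)
    have hlogp : 0 ≤ Real.log p := Real.log_nonneg (by exact_mod_cast (by omega : 1 ≤ p))
    refine ⟨s, 9 ^ s + 9 ^ s * D ^ s, fun N hN => ?_⟩
    have hlogN : Real.log 2 ≤ Real.log N := Real.log_le_log (by norm_num) (by exact_mod_cast hN)
    have hsub : lev μ ε N ⊆ lev ν ε N ∪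
        (Finset.Icc 1 N).filter (fun n : ℕ => p * n ∈ lev ν ε (p * N)) := by
      intro n hn
      rw [lev, Finset.mem_filter] at hn
      have h1 := hn.2
      rw [hc] at h1
      have h2 : ‖(c ν n + c ν (p * n)) / 2‖ ≤ (‖c ν n‖ + ‖c ν (p * n)‖) / 2 := by
        rw [norm_div, Complex.norm_ofNat]
        exact div_le_div_of_nonneg_right (norm_add_le _ _) (by norm_num)
      rw [Finset.mem_union]
      by_cases h3 : ε ≤ ‖c ν n‖
      · left
        rw [lev, Finset.mem_filter]
        exact ⟨hn.1, h3⟩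
      · right
        push Not at h3
        rw [Finset.mem_filter]
        refine ⟨hn.1, ?_⟩
        have h4 := Finset.mem_Icc.mp hn.1
        rw [lev, Finset.mem_filter, Finset.mem_Icc]
        refine ⟨⟨?_, ?_⟩, ?_⟩
        · nlinarith
        · exact Nat.mul_le_mul_left _ h4.2
        · push_cast
          linarith
    have hcard2 : ((Finset.Icc 1 N).filter (fun n : ℕ => p * n ∈ lev ν ε (p * N))).card ≤
        (lev ν ε (p * N)).card := by
      apply Finset.card_le_card_of_injOn (fun n => p * n)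
      · intro n hn
        exact (Finset.mem_filter.mp hn).2
      · intro a _ b _ hab
        exact Nat.eq_of_mul_eq_mul_left (by omega) hab
    have h1 : ((lev μ ε N).card : ℝ) ≤ ((lev ν ε N).card : ℝ) + ((lev ν ε (p * N)).card : ℝ) := by
      have := (Finset.card_le_card hsub).trans (Finset.card_union_le _ _)
      have h2 : (lev μ ε N).card ≤ (lev ν ε N).card + (lev ν ε (p * N)).card := by omega
      exact_mod_cast h2
    have h2 := riesz_upper hP h s hs' N hN
    have h3 := riesz_upper hP h s hs' (p * N) (by nlinarith)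
    have h4 : Real.log ((p * N : ℕ) : ℝ) ≤ D * Real.log N := by
      push_cast
      rw [Real.log_mul (by positivity) (by positivity), hD, add_mul, one_mul]
      have : Real.log p ≤ Real.log p / Real.log 2 * Real.log N := by
        rw [div_mul_eq_mul_div, le_div_iff₀ hlog2]
        exact mul_le_mul_of_nonneg_left hlogN hlogp
      linarith
    have h5 : (Real.log ((p * N : ℕ) : ℝ)) ^ s ≤ (D * Real.log N) ^ s := by
      apply pow_le_pow_left₀ _ h4
      apply Real.log_nonneg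
      have : 1 ≤ p * N := by nlinarith
      exact_mod_cast this
    calc ((lev μ ε N).card : ℝ) ≤ _ := h1
      _ ≤ 9 ^ s * (Real.log N) ^ s + 9 ^ s * (D * Real.log N) ^ s := by
          have h6 : (9 : ℝ) ^ s * (Real.log ((p * N : ℕ) : ℝ)) ^ s ≤ 9 ^ s * (D * Real.log N) ^ s :=
            mul_le_mul_of_nonneg_left h5 (by positivity)
          linarith
      _ = _ := by rw [mul_pow]; ring

end Pool.Agent.Q83.FL
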